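import Pool.Agent.MP_80c6d6_ag.Main

set_option autoImplicit false

open Filter Topology Pool.Agent.MP_80c6d6_ag
open scoped ENNReal

namespace Pool.Agent.Results.MP_80c6d6_ag.Criterion

universe u

theorem result (p : ℕ) [Fact p.Prime] (R : Type u) [CommRing R] [IsNoetherianRing R] [CharP R p]
    (hfin : (frobenius R p).Finite) (hpure : IsPureHom (frobenius R p)) :
    (∀ I : ℕ → Ideal R, IsGradedSeq I →
      ∃ l : ℝ≥0∞, Tendsto (fun m : ℕ => (m : ℝ≥0∞) * fpt p (I m)) atTop (𝓝 l)) ↔
      IsStronglyFRegular p R :=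
  characterization p hfin hpure

end Pool.Agent.Results.MP_80c6d6_ag.Criterion
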