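import Pool.Agent.MP_80c6d6_ag.Counter

set_option autoImplicit false

open Filter Topology Pool.Agent.MP_80c6d6_ag
open scoped ENNReal

namespace Pool.Agent.Results.MP_80c6d6_ag.NoLimit

theorem result (p : ℕ) [Fact p.Prime] :
    ∃ (R : Type) (_ : CommRing R) (_ : IsNoetherianRing R) (_ : IsLocalRing R) (_ : CharP R p),
      (frobenius R p).Finite ∧ IsPureHom (frobenius R p) ∧
      ∃ I : ℕ → Ideal R, IsGradedSeq I ∧
        (∀ m : ℕ, 1 ≤ m → (m : ℝ≥0∞) * fpt p (I m) = if Even m then 1 else 0) ∧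
        ¬ ∃ l : ℝ≥0∞, Tendsto (fun m : ℕ => (m : ℝ≥0∞) * fpt p (I m)) atTop (𝓝 l) :=
  counterexample p

end Pool.Agent.Results.MP_80c6d6_ag.NoLimit
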