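import Pool.Agent.MP_80c6d6_ag.SharpL

set_option autoImplicit false

open Pool.Agent.MP_80c6d6_ag
open scoped ENNReal NNReal

namespace Pool.Agent.Results.MP_80c6d6_ag.Rate

theorem result (p : ℕ) [Fact p.Prime] (c : ℝ≥0) :
    (∀ (R : Type) [CommRing R] [IsNoetherianRing R] [CharP R p], (frobenius R p).Finite →
      IsPureHom (frobenius R p) → ∀ I : ℕ → Ideal R, IsGradedSeq I →
      ∀ (m r k : ℕ) (s : Finset R), 1 ≤ m → 1 ≤ r → Ideal.span (s : Set R) = I m → I m ≠ ⊤ →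
      0 < fpt p (I m) → 0 < fpt p (I r) → (fpt p (I (k * m + r)))⁻¹ ≤
        k * (fpt p (I m))⁻¹ + c * s.card * (fpt p (I m))⁻¹ * (fpt p (I r))⁻¹) ↔
    (p : ℝ≥0) ≤ c := by
  refine ⟨sharp_lower p c, fun hc R _ _ _ hfin _ I hI m r k s hm hr hs hne h1 h2 => ?_⟩
  have hJ := hI.pow_mul_le hm hr k
  have h0 : 1 ≤ s.card := by
    refine Finset.card_pos.2 (Finset.nonempty_iff_ne_empty.2 fun e => ?_)
    obtain ⟨x, hx, hx'⟩ := hI.1 m hm
    obtain ⟨M, hM, -⟩ := Ideal.exists_le_maximal _ hne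
    obtain ⟨P, hP, -⟩ := Ideal.exists_minimalPrimes_le (I := ⊥) (J := M) bot_le
    rw [← hs, e, Finset.coe_empty, Ideal.span_empty, Ideal.mem_bot] at hx
    exact hx' P hP (hx ▸ P.zero_mem)
  rw [← hs] at hJ hne h1 ⊢
  refine (inv_fpt_le' p hfin hne h0 h1 h2 hJ).trans ?_
  have : (p : ℝ≥0∞) ≤ c := by exact_mod_cast hc
  gcongr

end Pool.Agent.Results.MP_80c6d6_ag.Rate
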