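import Pool.Agent.MP_80c6d6_ag.Rate

set_option autoImplicit false

open Filter Topology Pool.Agent.MP_80c6d6_ag
open scoped ENNReal NNReal

namespace Pool.Agent.Results.MP_80c6d6_ag.Structure

universe u

theorem result (p : ℕ) [Fact p.Prime] (R : Type u) [CommRing R] [IsNoetherianRing R] [CharP R p]
    (hfin : (frobenius R p).Finite) (_hpure : IsPureHom (frobenius R p))
    (I : ℕ → Ideal R) (hI : IsGradedSeq I) :
    (∃ d : ℕ, 1 ≤ d ∧ (∀ m : ℕ, ¬ d ∣ m → fpt p (I m) = 0) ∧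
      Tendsto (fun k : ℕ => ((d * k : ℕ) : ℝ≥0∞) * fpt p (I (d * k))) atTop
        (𝓝 (⨆ (m : ℕ) (_ : 1 ≤ m), (m : ℝ≥0∞) * fpt p (I m)))) ∧
    ((∃ l : ℝ≥0∞, Tendsto (fun m : ℕ => (m : ℝ≥0∞) * fpt p (I m)) atTop (𝓝 l)) ↔
      (∀ᶠ m : ℕ in atTop, 0 < fpt p (I m)) ∨ ∀ m : ℕ, 1 ≤ m → fpt p (I m) = 0) :=
  ⟨(structure_thm p hfin I hI).1, (structure_thm p hfin I hI).2.2⟩

end Pool.Agent.Results.MP_80c6d6_ag.Structure
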